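import Pool.Agent.W428.MOT.EStm

/-!
# Project ME: twisting the action by a torus does not change the class
-/

set_option autoImplicit false

namespace Pool.Agent.W578.ME

open MvPolynomial
open Pool.Agent.W428.MOT

variable {k : Type} [Field k] {ι κ : Type}

theorem isRF_one (S : Set (Pt k ι)) : IsRF S (fun _ => (1 : AlgebraicClosure k)) :=
  IsPF.one.isRF S

theorem isRF_pow {S : Set (Pt k ι)} {F : Pt k ι → AlgebraicClosure k} (hF : IsRF S F) (m : ℕ) :
    IsRF S (fun z => F z ^ m) := by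
  induction m with
  | zero => simpa using isRF_one S
  | succ m ih =>
    simp only [pow_succ]
    exact ih.mul hF

theorem isRF_zpow {S : Set (Pt k ι)} {F : Pt k ι → AlgebraicClosure k} (hF : IsRF S F) (m : ℤ)
    (h0 : m ≠ 0 → ∀ z ∈ S, F z ≠ 0) : IsRF S (fun z => F z ^ m) := by
  rcases le_or_gt 0 m with h | h
  · refine (isRF_pow hF m.toNat).congr fun z _ => ?_
    nth_rewrite 1 [← Int.toNat_of_nonneg h]
    rw [zpow_natCast]
  · have h2 : (0 : ℤ) ≤ -m := by omega
    refine ((isRF_one S).div (isRF_pow hF (-m).toNat)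
      (fun z hz => pow_ne_zero _ (h0 h.ne z hz))).congr fun z _ => ?_
    rw [← zpow_natCast, Int.toNat_of_nonneg h2, zpow_neg, one_div, inv_inv]

theorem isRF_prod {S : Set (Pt k ι)} {α : Type} (s : Finset α)
    (F : α → Pt k ι → AlgebraicClosure k) (hF : ∀ a ∈ s, IsRF S (F a)) :
    IsRF S (fun z => ∏ a ∈ s, F a z) := by
  classical
  induction s using Finset.induction_on with
  | empty => simpa using isRF_one S
  | insert a s ha ih =>
    simp only [Finset.prod_insert ha]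
    exact (hF a (Finset.mem_insert_self _ _)).mul
      (ih fun b hb => hF b (Finset.mem_insert_of_mem hb))

theorem zpow_split (x : AlgebraicClosure k) (m : ℤ) :
    x ^ m = x ^ m.toNat / x ^ (-m).toNat := by
  rcases le_or_gt 0 m with h | h
  · have h1 : (-m).toNat = 0 := by omega
    rw [h1, pow_zero, div_one]
    nth_rewrite 1 [← Int.toNat_of_nonneg h]
    rw [zpow_natCast]
  · have h1 : m.toNat = 0 := by omega
    have h2 : (0 : ℤ) ≤ -m := by omega
    rw [h1, pow_zero, ← zpow_natCast x (-m).toNat, Int.toNat_of_nonneg h2, zpow_neg, one_div,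
      inv_inv]

/-- the monomial `z ^ w` -/
noncomputable def mon [Fintype ι] (w : ι → ℤ) (z : Pt k ι) : AlgebraicClosure k := ∏ i, z i ^ w i

theorem mon_dact [Fintype ι] (w ρ : ι → ℤ) (l : AlgebraicClosure k) (hl : l ≠ 0) (z : Pt k ι) :
    mon w (dact ρ l z) = l ^ (∑ i, w i * ρ i) * mon w z := by
  unfold mon dact
  simp only [mul_zpow, Finset.prod_mul_distrib]
  congr 1
  have h1 : ∀ s : Finset ι, l ^ (∑ i ∈ s, w i * ρ i) = ∏ i ∈ s, (l ^ ρ i) ^ w i := by
    classical
    intro s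
    induction s using Finset.induction_on with
    | empty => simp
    | insert a s ha ih =>
      rw [Finset.sum_insert ha, Finset.prod_insert ha, zpow_add₀ hl, ih, ← zpow_mul,
        mul_comm (w a)]
  exact (h1 _).symm

theorem dact_dact (ρ : ι → ℤ) (l l' : AlgebraicClosure k) (z : Pt k ι) :
    dact ρ l (dact ρ l' z) = dact ρ (l * l') z := by
  funext i
  simp only [dact, mul_zpow, mul_assoc]

theorem dact_one (ρ : ι → ℤ) (z : Pt k ι) : dact ρ (1 : AlgebraicClosure k) z = z := by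
  funext i
  simp [dact]

/-- the slice `z ^ w = 1` -/
def V1 [Fintype ι] (S : Set (Pt k ι)) (w : ι → ℤ) : Set (Pt k ι) := {z | z ∈ S ∧ mon w z = 1}

theorem constr_V1 [Fintype ι] {S : Set (Pt k ι)} (hS : Constr S) (w : ι → ℤ)
    (hw : ∀ z ∈ S, ∀ i, w i ≠ 0 → z i ≠ 0) : Constr (V1 S w) := by
  have h1 : V1 S w = S ∩ {z | ∏ i, z i ^ (w i).toNat = ∏ i, z i ^ (-(w i)).toNat} := by
    ext z
    simp only [V1, Set.mem_ofPred_eq, Set.mem_inter_iff]
    refine and_congr_right fun hz => ?_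
    have h2 : mon w z = (∏ i, z i ^ (w i).toNat) / ∏ i, z i ^ (-(w i)).toNat := by
      unfold mon
      rw [← Finset.prod_div_distrib]
      exact Finset.prod_congr rfl fun i _ => zpow_split _ _
    have h3 : (∏ i, z i ^ (-(w i)).toNat) ≠ 0 := by
      refine Finset.prod_ne_zero_iff.mpr fun i _ => ?_
      by_cases h0 : w i = 0
      · simp [h0]
      · exact pow_ne_zero _ (hw z hz i h0)
    rw [h2, div_eq_one_iff_eq h3]
  rw [h1]
  exact hS.inter (Constr.eq (IsPF.prod _ _ fun i _ => (IsPF.coord i).pow _)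
    (IsPF.prod _ _ fun i _ => (IsPF.coord i).pow _))

section

variable {n : ℕ} {f : MvPolynomial (Fin n) k} {R : Type} [CommRing R]

theorem ne_zero_of_pow {d : ℕ} (hd : 0 < d) {l : AlgebraicClosure k} (hl : l ^ d = 1) : l ≠ 0 := by
  intro h0
  rw [h0, zero_pow hd.ne'] at hl
  exact zero_ne_one hl

/-- The slice with its twisted action. -/
theorem valid_V1 [Fintype ι] {S : Set (Pt k ι)} {ρ : ι → ℤ} {d : ℕ} {β : Fin n → Option ι}
    (hV : Valid f S ρ d β) (w κ' : ι → ℤ) (hw1 : ∑ i, w i * κ' i = 1)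
    (hw : ∀ z ∈ S, ∀ i, w i ≠ 0 → z i ≠ 0)
    (hst : ∀ t : AlgebraicClosure k, t ≠ 0 → ∀ z ∈ S, dact κ' t z ∈ S)
    (hβ : ∀ i j, β i = some j → κ' j = 0) :
    Valid f (V1 S w) (fun i => ρ i - (∑ j, w j * ρ j) * κ' i) d β where
  constr := constr_V1 hV.constr w hw
  pos := hV.pos
  stable := by
    intro l hl z hz
    have hl0 := ne_zero_of_pow hV.pos hl
    have h1 : dact (fun i => ρ i - (∑ j, w j * ρ j) * κ' i) l z =
        dact κ' (l ^ (-(∑ j, w j * ρ j))) (dact ρ l z) := by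
      funext i
      simp only [dact]
      rw [← mul_assoc, ← zpow_mul, ← zpow_add₀ hl0]
      congr 2
      ring
    refine ⟨?_, ?_⟩
    · rw [h1]
      exact hst _ (zpow_ne_zero _ hl0) _ (hV.stable l hl z hz.1)
    · rw [h1, mon_dact _ _ _ (zpow_ne_zero _ hl0), mon_dact _ _ _ hl0, hw1, hz.2, zpow_one,
        mul_one, ← zpow_add₀ hl0, neg_add_cancel, zpow_zero]
  base := fun z hz => hV.base z hz.1
  inv := fun i j h => by rw [hV.inv i j h, hβ i j h, mul_zero, sub_zero]

theorem split (M : EMeas f R) [Fintype ι] {S : Set (Pt k ι)} {ρ : ι → ℤ} {d : ℕ}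
    {β : Fin n → Option ι} (hV : Valid f S ρ d β) (w κ' : ι → ℤ) (hw1 : ∑ i, w i * κ' i = 1)
    (hw : ∀ z ∈ S, ∀ i, w i ≠ 0 → z i ≠ 0)
    (hst : ∀ t : AlgebraicClosure k, t ≠ 0 → ∀ z ∈ S, dact κ' t z ∈ S)
    (hβ : ∀ i j, β i = some j → κ' j = 0) :
    M.χ ι S ρ d β =
      M.χ ι (V1 S w) (fun i => ρ i - (∑ j, w j * ρ j) * κ' i) d β * (M.L - 1) := by
  set r : ℤ := ∑ j, w j * ρ j with hr
  set σ : ι → ℤ := fun i => ρ i - r * κ' i with hσ
  have hV1 : Valid f (V1 S w) σ d β := valid_V1 hV w κ' hw1 hw hst hβ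
  -- the affine bundle and its pieces
  set β' : Fin n → Option (ι ⊕ Fin 1) := fun i => (β i).map Sum.inl with hβ'
  set σ' : ι ⊕ Fin 1 → ℤ := Sum.elim σ (fun _ => r) with hσ'
  set A : Set (Pt k (ι ⊕ Fin 1)) := {z | (fun i => z (Sum.inl i)) ∈ V1 S w} with hA
  set A0 : Set (Pt k (ι ⊕ Fin 1)) := {z | z ∈ A ∧ z (Sum.inr 0) = 0} with hA0
  set A1 : Set (Pt k (ι ⊕ Fin 1)) := {z | z ∈ A ∧ z (Sum.inr 0) ≠ 0} with hA1
  have hAc : Constr A := hV1.constr.preimage
    (fun (z : Pt k (ι ⊕ Fin 1)) i => z (Sum.inl i)) fun _ => IsPF.coord _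
  have hcb : ∀ z : Pt k (ι ⊕ Fin 1), cbase β' z = cbase β (fun i => z (Sum.inl i)) := by
    intro z
    funext i
    simp only [cbase, hβ']
    cases hb : β i with
    | none => rfl
    | some j => rfl
  have hAst : ∀ l : AlgebraicClosure k, l ^ d = 1 → ∀ z ∈ A, dact σ' l z ∈ A := by
    intro l hl z hz
    exact hV1.stable l hl _ hz
  have hinv : ∀ i j, β' i = some j → σ' j = 0 := by
    intro i j h
    simp only [hβ'] at h
    cases hb : β i with
    | none => rw [hb] at h; simp at h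
    | some j' =>
      rw [hb] at h
      simp only [Option.map_some, Option.some.injEq] at h
      rw [← h]
      exact hV1.inv i j' hb
  have hVA0 : Valid f A0 σ' d β' :=
    { constr := hAc.and (Constr.eqz (IsPF.coord _))
      pos := hV.pos
      stable := fun l hl z hz => ⟨hAst l hl z hz.1, by simp [dact, hz.2]⟩
      base := fun z hz => by rw [hcb]; exact hV1.base _ hz.1
      inv := hinv }
  have hVA1 : Valid f A1 σ' d β' :=
    { constr := hAc.and (Constr.ne (IsPF.coord _) IsPF.zero)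
      pos := hV.pos
      stable := fun l hl z hz => ⟨hAst l hl z hz.1, by
        simp only [dact]
        exact mul_ne_zero (zpow_ne_zero _ (ne_zero_of_pow hV.pos hl)) hz.2⟩
      base := fun z hz => by rw [hcb]; exact hV1.base _ hz.1
      inv := hinv }
  have e1 : M.χ (ι ⊕ Fin 1) A σ' d β' = M.χ ι (V1 S w) σ d β * M.L := by
    have := M.aff (κ := Fin 1) (V1 S w) σ (fun _ => r) d β hV1
    rw [Fintype.card_fin, pow_one] at this
    exact this
  have e2 : M.χ (ι ⊕ Fin 1) A σ' d β' =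
      M.χ (ι ⊕ Fin 1) A0 σ' d β' + M.χ (ι ⊕ Fin 1) A1 σ' d β' := by
    have h1 : A = A0 ∪ A1 := by
      ext z
      simp only [hA0, hA1, Set.mem_union, Set.mem_ofPred_eq]
      tauto
    have h2 : Disjoint A0 A1 := by
      rw [Set.disjoint_left]
      intro z h h'
      exact h'.2 h.2
    have := M.add A0 A1 σ' d β' hVA0 hVA1 h2
    rw [← h1] at this
    exact this
  have e3 : M.χ (ι ⊕ Fin 1) A0 σ' d β' = M.χ ι (V1 S w) σ d β := by
    refine M.iso A0 (V1 S w) σ' σ d d β' β hVA0 hV1 (fun z i => z (Sum.inl i))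
      (fun v => Sum.elim v (fun _ => 0)) (regularOn_poly (fun i => IsPF.coord _) _)
      (regularOn_poly (fun i => ?_) _) ?_ ?_ ?_ ?_ ?_ ?_
    · rcases i with i | i
      · exact IsPF.coord i
      · exact IsPF.zero
    · intro z hz
      exact hz.1
    · intro v hv
      exact ⟨hv, rfl⟩
    · intro z hz
      funext i
      rcases i with i | i
      · rfl
      · have : i = 0 := Subsingleton.elim _ _
        rw [this]
        exact hz.2.symm
    · intro v _
      rfl
    · intro z _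
      exact (hcb z).symm
    · intro l _ z _
      rfl
  have e4 : M.χ ι S ρ d β = M.χ (ι ⊕ Fin 1) A1 σ' d β' := by
    have hmon0 : ∀ z ∈ S, mon w z ≠ 0 := by
      intro z hz
      unfold mon
      refine Finset.prod_ne_zero_iff.mpr fun i _ => ?_
      by_cases h0 : w i = 0
      · simp [h0]
      · exact zpow_ne_zero _ (hw z hz i h0)
    have hmonR : IsRF S (mon w) := by
      refine isRF_prod _ _ fun i _ => ?_
      exact isRF_zpow ((IsPF.coord i).isRF S) _ fun h z hz => hw z hz i h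
    refine M.iso S A1 ρ σ' d d β β' hV hVA1
      (fun z => Sum.elim (dact κ' (mon w z)⁻¹ z) (fun _ => mon w z))
      (fun v => dact κ' (v (Sum.inr 0)) (fun i => v (Sum.inl i))) (fun i => ?_) (fun i => ?_)
      ?_ ?_ ?_ ?_ ?_ ?_
    · rcases i with i | i
      · refine IsRF.congr ((isRF_zpow hmonR (-(κ' i)) fun _ => hmon0).mul
          ((IsPF.coord i).isRF S)) fun z _ => ?_
        change (mon w z)⁻¹ ^ (κ' i) * z i = _
        rw [inv_zpow, zpow_neg]
      · exact hmonR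
    · exact (isRF_zpow ((IsPF.coord (Sum.inr 0)).isRF A1) (κ' i) fun _ z hz => hz.2).mul
        ((IsPF.coord (Sum.inl i)).isRF A1)
    · intro z hz
      have h0 := hmon0 z hz
      refine ⟨⟨?_, ?_⟩, ?_⟩
      · exact hst _ (inv_ne_zero h0) z hz
      · change mon w (dact κ' (mon w z)⁻¹ z) = 1
        rw [mon_dact _ _ _ (inv_ne_zero h0), hw1, zpow_one, inv_mul_cancel₀ h0]
      · exact h0
    · intro v hv
      exact hst _ hv.2 _ hv.1.1
    · intro z hz
      have h0 := hmon0 z hz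
      change dact κ' (mon w z) (dact κ' (mon w z)⁻¹ z) = z
      rw [dact_dact, mul_inv_cancel₀ h0, dact_one]
    · intro v hv
      have h0 : v (Sum.inr 0) ≠ 0 := hv.2
      have h1 : mon w (fun i => v (Sum.inl i)) = 1 := hv.1.2
      have h2 : mon w (dact κ' (v (Sum.inr 0)) (fun i => v (Sum.inl i))) = v (Sum.inr 0) := by
        rw [mon_dact _ _ _ h0, hw1, zpow_one, h1, mul_one]
      funext i
      rcases i with i | i
      · change dact κ' (mon w (dact κ' (v (Sum.inr 0)) (fun i => v (Sum.inl i))))⁻¹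
          (dact κ' (v (Sum.inr 0)) (fun i => v (Sum.inl i))) i = _
        rw [h2, dact_dact, inv_mul_cancel₀ h0, dact_one]
      · have : i = 0 := Subsingleton.elim _ _
        rw [this]
        exact h2
    · intro z hz
      rw [hcb]
      funext i
      simp only [cbase]
      cases hb : β i with
      | none => rfl
      | some j =>
        simp only [Option.elim, Sum.elim_inl, dact, hβ i j hb, zpow_zero, one_mul]
    · intro l hl z hz
      have hl0 : l ≠ 0 := ne_zero_of_pow (Nat.mul_pos hV.pos hV.pos) hl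
      have hld : l ^ d ≠ 0 := pow_ne_zero _ hl0
      have h0 := hmon0 z hz
      have h1 : mon w (dact ρ (l ^ d) z) = (l ^ d) ^ r * mon w z := mon_dact _ _ _ hld _
      funext i
      rcases i with i | i
      · change dact κ' (mon w (dact ρ (l ^ d) z))⁻¹ (dact ρ (l ^ d) z) i =
          (l ^ d) ^ σ i * dact κ' (mon w z)⁻¹ z i
        rw [h1]
        simp only [dact, hσ]
        rw [mul_inv, mul_zpow, inv_zpow, ← zpow_mul, zpow_sub₀ hld]
        field_simp
      · change mon w (dact ρ (l ^ d) z) = (l ^ d) ^ r * mon w z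
        exact h1
  rw [e4]
  have e5 : M.χ (ι ⊕ Fin 1) A1 σ' d β' =
      M.χ (ι ⊕ Fin 1) A σ' d β' - M.χ (ι ⊕ Fin 1) A0 σ' d β' := by
    rw [e2]; ring
  rw [e5, e1, e3]
  ring

/-- the same set, proportional weights -/
theorem same (M : EMeas f R) [Fintype ι] {S : Set (Pt k ι)} {ρ₁ ρ₂ : ι → ℤ} {d₁ d₂ : ℕ}
    {β : Fin n → Option ι} (hV1 : Valid f S ρ₁ d₁ β) (hV2 : Valid f S ρ₂ d₂ β)
    (h : ∀ i, (d₂ : ℤ) * ρ₁ i = d₁ * ρ₂ i) : M.χ ι S ρ₁ d₁ β = M.χ ι S ρ₂ d₂ β := by
  refine M.iso S S ρ₁ ρ₂ d₁ d₂ β β hV1 hV2 id id (regularOn_poly (fun i => IsPF.coord _) _)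
    (regularOn_poly (fun i => IsPF.coord _) _) (fun z hz => hz) (fun z hz => hz)
    (fun z _ => rfl) (fun z _ => rfl) (fun z _ => rfl) ?_
  intro l _ z _
  funext i
  simp only [dact, id]
  congr 1
  rw [← zpow_natCast l d₂, ← zpow_natCast l d₁, ← zpow_mul, ← zpow_mul, h i]

theorem exists_bezout [Fintype ι] (κ : ι → ℤ) (h : κ ≠ 0) : ∃ (g : ℕ) (κ' w : ι → ℤ), g ≠ 0 ∧
    (∀ i, κ i = κ' i * g) ∧ ∑ i, w i * κ' i = 1 ∧ ∀ i, κ i = 0 → w i = 0 := by
  classical
  set I : Ideal ℤ := Ideal.span (Set.range κ) with hI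
  obtain ⟨a, ha⟩ : ∃ a : ℤ, I = Ideal.span {a} := (IsPrincipalIdealRing.principal I).principal
  set g : ℕ := a.natAbs with hg
  have hg' : I = Ideal.span {(g : ℤ)} := by
    rw [ha, hg, Int.span_natAbs]
  have hdiv : ∀ i, ∃ c, κ i = c * (g : ℤ) := by
    intro i
    have h1 : κ i ∈ I := Ideal.subset_span ⟨i, rfl⟩
    rw [hg', Ideal.mem_span_singleton'] at h1
    obtain ⟨c, hc⟩ := h1
    exact ⟨c, hc.symm⟩
  choose κ' hκ' using hdiv
  have hg0 : g ≠ 0 := by
    intro h0
    apply h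
    funext i
    rw [hκ' i, h0]
    simp
  have hgI : (g : ℤ) ∈ I := by
    rw [hg']
    exact Ideal.subset_span rfl
  rw [hI] at hgI
  obtain ⟨w, hw⟩ := (Ideal.mem_span_range_iff_exists_fun).mp hgI
  refine ⟨g, κ', fun i => if κ i = 0 then 0 else w i, hg0, hκ', ?_, ?_⟩
  · have h2 : (∑ i, (if κ i = 0 then 0 else w i) * κ' i) * (g : ℤ) = 1 * g := by
      rw [one_mul, Finset.sum_mul, ← hw]
      refine Finset.sum_congr rfl fun i _ => ?_
      by_cases h0 : κ i = 0
      · simp [h0]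
      · rw [if_neg h0, mul_assoc, hw, ← hκ' i]
    exact mul_right_cancel₀ (by exact_mod_cast hg0) h2
  · intro i hi
    simp [hi]

end

/-- `S_ETw`. -/
theorem etw : S_ETw := by
  intro k _ n f R _ M ι _ _ S ρ₁ ρ₂ d₁ d₂ β hV1 hV2 hnz htor
  set κ : ι → ℤ := fun i => (d₂ : ℤ) * ρ₁ i - d₁ * ρ₂ i with hκ
  by_cases h0 : κ = 0
  · refine same M hV1 hV2 fun i => ?_
    have := congrFun h0 i
    simp only [hκ, Pi.zero_apply] at this
    linarith
  · obtain ⟨g, κ', w, hg, hκ', hw1, hw0⟩ := exists_bezout κ h0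
    have hκz : ∀ i, κ i ≠ 0 → (d₂ : ℤ) * ρ₁ i ≠ d₁ * ρ₂ i := by
      intro i hi h
      apply hi
      simp only [hκ]
      linarith
    have hw : ∀ z ∈ S, ∀ i, w i ≠ 0 → z i ≠ 0 := by
      intro z hz i hi
      exact hnz z hz i (hκz i fun h => hi (hw0 i h))
    have hst : ∀ t : AlgebraicClosure k, t ≠ 0 → ∀ z ∈ S, dact κ' t z ∈ S := by
      intro t ht z hz
      obtain ⟨s, hs⟩ := IsAlgClosed.exists_pow_nat_eq t (Nat.pos_of_ne_zero hg)
      have hs0 : s ≠ 0 := by
        intro h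
        rw [h, zero_pow hg] at hs
        exact ht hs.symm
      have h1 := htor s hs0 z hz
      have h2 : dact (fun i => (d₂ : ℤ) * ρ₁ i - d₁ * ρ₂ i) s z = dact κ' t z := by
        funext i
        have h3 : (d₂ : ℤ) * ρ₁ i - d₁ * ρ₂ i = κ' i * g := hκ' i
        simp only [dact]
        rw [h3, ← hs, ← zpow_natCast, ← zpow_mul, mul_comm (κ' i)]
      rwa [h2] at h1
    have hβ : ∀ i j, β i = some j → κ' j = 0 := by
      intro i j h
      have h1 : κ j = 0 := by
        simp only [hκ]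
        rw [hV1.inv i j h, hV2.inv i j h]
        ring
      rw [hκ' j] at h1
      rcases mul_eq_zero.mp h1 with h2 | h2
      · exact h2
      · exact absurd (by exact_mod_cast h2) hg
    rw [split M hV1 w κ' hw1 hw hst hβ, split M hV2 w κ' hw1 hw hst hβ]
    congr 1
    refine same M (valid_V1 hV1 w κ' hw1 hw hst hβ) (valid_V1 hV2 w κ' hw1 hw hst hβ) fun i => ?_
    have h1 : (d₂ : ℤ) * ∑ j, w j * ρ₁ j - d₁ * ∑ j, w j * ρ₂ j = g := by
      have h2 : (∑ j, w j * κ' j) * (g : ℤ) = g := by rw [hw1, one_mul]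
      rw [← h2, Finset.mul_sum, Finset.mul_sum, Finset.sum_mul, ← Finset.sum_sub_distrib]
      refine Finset.sum_congr rfl fun j _ => ?_
      have h3 : (d₂ : ℤ) * ρ₁ j - d₁ * ρ₂ j = κ' j * g := hκ' j
      rw [mul_assoc, ← h3]
      ring
    have h3 : (d₂ : ℤ) * ρ₁ i - d₁ * ρ₂ i = κ' i * g := hκ' i
    have h4 : (d₂ : ℤ) * (ρ₁ i - (∑ j, w j * ρ₁ j) * κ' i) -
        d₁ * (ρ₂ i - (∑ j, w j * ρ₂ j) * κ' i) = 0 := by
      have : (d₂ : ℤ) * (ρ₁ i - (∑ j, w j * ρ₁ j) * κ' i) -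
          d₁ * (ρ₂ i - (∑ j, w j * ρ₂ j) * κ' i) =
          ((d₂ : ℤ) * ρ₁ i - d₁ * ρ₂ i) -
            ((d₂ : ℤ) * ∑ j, w j * ρ₁ j - d₁ * ∑ j, w j * ρ₂ j) * κ' i := by ring
      rw [this, h1, h3]
      ring
    linarith

theorem main (_ : S_EFree) : S_ETw := etw

end Pool.Agent.W578.ME
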